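import Pool.Agent.Q205.Baire.Spec

/-!
# Generic local statistics: uniformity on open sets, and failure is generic

`M` is a Baire space (for instance the set of `C^∞` metrics of negative curvature and area one on a
closed surface, an open subset of a closed subset of a Frechet space), `X : Spectra M` a continuous
family of nondecreasing sequences `x_0(g) ≤ x_1(g) ≤ ...` tending to infinity (for instance the
unfolded Laplace eigenvalues).  For a test function `f` the statistic at height `T` is

* `S X (stat (some n)) f T g = (1/T) ∑ f(x_{k_1} - x_{k_0}, ..., x_{k_{n+1}} - x_{k_0})`, over the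
  pairwise distinct indices `k_0, ..., k_{n+1}` with all `x_{k_i}(g) ≤ T` (the `(n+2)`-point
  correlation; pair correlation for `n = 0`);
* `S X (stat none) f T g = (1/T) ∑_{x_k(g) ≤ T} f(x_{k+1} - x_k)` (nearest neighbour spacings).

`Good X dim stat μ g`: for every one of these statistics `a` and every continuous compactly
supported `f`, the statistic tends to `∫ f dμ_a` as `T → ∞`, where `μ_a` are prescribed measures
(for instance those of the GOE).
-/

set_option autoImplicit false

namespace Pool.Agent.Results.MP_a825e8_mp.GenericDichotomy

open Filter Topology Set MeasureTheory Pool.Agent.Q205.Baire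

/-- `(n+2)`-point correlations -/
def corr (n : ℕ) : LocalStat (Fin (n + 1) → ℝ) where
  ι := Fin (n + 2) → ℕ
  I N := by
    classical
    exact (Fintype.piFinset (fun _ => Finset.range N)).filter (fun σ => Function.Injective σ)
  φ σ y := fun j => y (σ j.succ) - y (σ 0)
  cont σ := by fun_prop

/-- nearest neighbour spacings -/
def spacing : LocalStat (Fin 1 → ℝ) where
  ι := ℕ
  I N := Finset.range N
  φ k y := fun _ => y (k + 1) - y k
  cont k := by fun_prop

/-- number of variables of the test functions -/
def dim : Option ℕ → ℕ
  | none => 1
  | some n => n + 1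

/-- all local statistics: nearest neighbour spacings (`none`), `(n+2)`-point correlations -/
def stat : ∀ a : Option ℕ, LocalStat (Fin (dim a) → ℝ)
  | none => spacing
  | some n => corr n

/-- **Theorem.** Let `M` be a Baire space with a continuous family `X` of level sequences, and let
`μ_a` be measures finite on compact sets.

1. The local statistics of `X(g)` converge to `μ` for generic `g` if and only if every single
   statistic is eventually uniformly close to its limit on some open part of every open set: for
   all `a`, `f`, `ε > 0` and every nonempty open `U` there are a nonempty open `V ⊆ U` and `T0` with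
   `|S X (stat a) f T g - ∫ f dμ_a| ≤ ε` for all `g ∈ V` and all `T ≥ T0`.
2. If they do not converge to `μ` for generic `g`, then there are a statistic, a test function, an
   `ε > 0` and a nonempty open set `U` such that for GENERIC `g ∈ U` the statistic deviates from the
   predicted limit by more than `ε` for arbitrarily large `T`.
3. If `D` is any set of parameters for which a given statistic deviates from a value `c` by more
   than `ε` for arbitrarily large `T`, then the same holds for generic `g` in the interior of the
   closure of `D`.
4. Hence if the statistics converge to `μ` for generic `g`, then for every statistic, `f` and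
   `ε > 0` the set of `g` with a deviation of more than `ε` for arbitrarily large `T` is nowhere
   dense. -/
theorem result {M : Type*} [TopologicalSpace M] [BaireSpace M] (X : Spectra M)
    (μ : ∀ a : Option ℕ, Measure (Fin (dim a) → ℝ)) [∀ a, IsFiniteMeasureOnCompacts (μ a)] :
    ((∀ᶠ g in residual M, Good X dim stat μ g) ↔
      ∀ a, ∀ f : (Fin (dim a) → ℝ) → ℝ, Continuous f → HasCompactSupport f →
        ∀ ε : ℝ, 0 < ε → ∀ U : Set M, IsOpen U → U.Nonempty →
          ∃ V : Set M, IsOpen V ∧ V.Nonempty ∧ V ⊆ U ∧
            ∃ T0 : ℝ, ∀ g ∈ V, ∀ T, T0 ≤ T → |S X (stat a) f T g - ∫ z, f z ∂(μ a)| ≤ ε) ∧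
    ((¬ ∀ᶠ g in residual M, Good X dim stat μ g) →
      ∃ a, ∃ f : (Fin (dim a) → ℝ) → ℝ, Continuous f ∧ HasCompactSupport f ∧ ∃ ε : ℝ, 0 < ε ∧
        ∃ U : Set M, IsOpen U ∧ U.Nonempty ∧ ∀ᶠ g in residual M, g ∈ U →
          ∃ᶠ T in atTop, ε < |S X (stat a) f T g - ∫ z, f z ∂(μ a)|) ∧
    (∀ a, ∀ f : (Fin (dim a) → ℝ) → ℝ, Continuous f → ∀ (c ε : ℝ) (D : Set M),
      (∀ g ∈ D, ∃ᶠ T in atTop, ε < |S X (stat a) f T g - c|) →
        ∀ᶠ g in residual M, g ∈ interior (closure D) →
          ∃ᶠ T in atTop, ε < |S X (stat a) f T g - c|) ∧
    ((∀ᶠ g in residual M, Good X dim stat μ g) →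
      ∀ a, ∀ f : (Fin (dim a) → ℝ) → ℝ, Continuous f → HasCompactSupport f → ∀ ε : ℝ, 0 < ε →
        IsNowhereDense {g | ∃ᶠ T in atTop, ε < |S X (stat a) f T g - ∫ z, f z ∂(μ a)|}) := by
  refine ⟨main_iff X dim stat μ, fun h => ?_, ?_, ?_⟩
  · exact main_dichotomy X dim stat μ h
  · intro a f hf c ε D hD
    exact frequently_of_dense (nice_S X (stat a) hf) c ε D hD
  · intro h a f hf hs ε hε
    apply main_nowhere X (stat a) hf hε
    filter_upwards [h] with g hg
    exact hg a f hf hs

end Pool.Agent.Results.MP_a825e8_mp.GenericDichotomy
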