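import Pool.Agent.Q205.Lim.Surf

/-!
# Generic conformal metrics on closed surfaces: the limit points of the local statistics

`(M, g)` is a closed surface with a continuous Riemannian metric, `F` a topological space and
`ι : F → C(M)` a continuous map, for instance the inclusion of the space of the smooth functions `φ`
for which the metric `exp φ · g` has negative curvature and area one. The unfolded levels
`x 0 ≤ x 1 ≤ ...` of `exp (ι φ) · g` are the eigenvalues of its Laplacian times `area / (4 π)`. The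
local statistics are the nearest neighbour spacings and all `n`-point correlations, with the averages
`1 / T` over `x_k ≤ T` of the problem. A family `ν` of measures (one for every statistic) is a limit
point of a spectrum if all statistics are simultaneously close to `ν` for arbitrarily large `T`.

* At a generic `φ` every limit point of the statistics for `T → ∞` and metrics tending to `φ` is a
  limit point of the spectrum of `φ` itself.
* At a generic `φ` every limit point is stable: generic metrics near `φ` have statistics close to it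
  for arbitrarily large `T`.
* Alternative for every `ν`, for instance for the statistics of the GOE: there are disjoint open sets
  of metrics with dense union such that `ν` is a limit point for the generic metric of the first one,
  and near every metric of the second one the statistics of all metrics stay away from `ν`, uniformly
  for all large `T`.
-/

set_option autoImplicit false

open Set Filter Topology MeasureTheory
open scoped Real ContDiff
open Pool.Agent.Y262.QE

noncomputable section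

namespace Pool.Agent.Results.MP_a825e8_mp.SurfacesLimitStatistics

/-- `u 0, u 1, ...` is an orthonormal basis of `L² (μ)` which consists of eigenfunctions of the
Laplacian of the surface `D` with the area `μ`; the eigenvalues `lam 0 ≤ lam 1 ≤ ...` are ordered -/
structure IsEigenbasis {M : Type} [MeasurableSpace M] (D : Data M) (μ : Measure M)
    (u : ℕ → M → ℝ) (lam : ℕ → ℝ) : Prop where
  eig : ∀ j, D.IsEig μ (lam j) (u j)
  mono : Monotone lam
  orth : ∀ i j, ∫ x, u i x * u j x ∂μ = if i = j then 1 else 0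
  total : ∀ f : M → ℝ, MemLp f 2 μ → (∀ j, ∫ x, f x * u j x ∂μ = 0) → f =ᵐ[μ] 0

/-- the surface with the metric `exp φ · g` -/
def surf {M : Type} [TopologicalSpace M] (D : Data M) (φ : C(M, ℝ)) : Data M :=
  D.conf fun x => Real.exp (φ x)

/-- the area of the metric `exp φ · g` -/
def area {M : Type} [TopologicalSpace M] [MeasurableSpace M] (μ : Measure M) (φ : C(M, ℝ)) :
    Measure M :=
  wm μ fun x => Real.exp (φ x)

/-- `x` is the sequence of the unfolded levels of the metric `exp φ · g`: the eigenvalues, listed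
with multiplicity, times the total area divided by `4 π` -/
def IsUnfolded {M : Type} [TopologicalSpace M] [MeasurableSpace M] (D : Data M) (μ : Measure M)
    (φ : C(M, ℝ)) (x : ℕ → ℝ) : Prop :=
  ∃ (u : ℕ → M → ℝ) (lam : ℕ → ℝ), IsEigenbasis (surf D φ) (area μ φ) u lam ∧
    ∀ k, x k = (area μ φ).real univ / (4 * π) * lam k

/-- the number of the levels `x k ≤ T` -/
def number (T : ℝ) (x : ℕ → ℝ) : ℕ := Set.ncard {k : ℕ | x k ≤ T}

/-- number of variables of the test functions -/
def dim : Option ℕ → ℕ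
  | none => 1
  | some n => n + 1

open Classical in
/-- The local statistics at height `T`: for `none` the nearest neighbour spacings
`(1/T) ∑_{x_k ≤ T} f(x_{k+1} - x_k)`, for `some n` the `(n+2)`-point correlation
`(1/T) ∑ f(x_{k_1} - x_{k_0}, ..., x_{k_{n+1}} - x_{k_0})` over the pairwise distinct indices
`k_0, ..., k_{n+1}` with `x_{k_i} ≤ T`. -/
def statistic : (a : Option ℕ) → ((Fin (dim a) → ℝ) → ℝ) → ℝ → (ℕ → ℝ) → ℝ
  | none, f, T, x => (∑ k ∈ Finset.range (number T x), f (fun _ => x (k + 1) - x k)) / T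
  | some n, f, T, x => (∑ σ ∈ (Fintype.piFinset
      (fun _ : Fin (n + 2) => Finset.range (number T x))).filter (fun σ => Function.Injective σ),
      f (fun j => x (σ j.succ) - x (σ 0))) / T

/-- the statistics of `x` at height `T`, for the test functions `f j` and the kinds `a j`, are
within `ε` of the integrals with respect to the measures `ν` -/
def Close (ν : ∀ a, Measure (Fin (dim a) → ℝ)) {n : ℕ} (a : Fin n → Option ℕ)
    (f : ∀ j, (Fin (dim (a j)) → ℝ) → ℝ) (ε T : ℝ) (x : ℕ → ℝ) : Prop :=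
  ∀ j, |statistic (a j) (f j) T x - ∫ z, f j z ∂(ν (a j))| < ε

/-- continuous test functions with compact support -/
def Test {n : ℕ} (a : Fin n → Option ℕ) (f : ∀ j, (Fin (dim (a j)) → ℝ) → ℝ) : Prop :=
  ∀ j, Continuous (f j) ∧ HasCompactSupport (f j)

/-- `ν` is a limit point of all local statistics of `x`, for `T → ∞` -/
def IsLimit (ν : ∀ a, Measure (Fin (dim a) → ℝ)) (x : ℕ → ℝ) : Prop :=
  ∀ (n : ℕ) (a : Fin n → Option ℕ) (f : ∀ j, (Fin (dim (a j)) → ℝ) → ℝ), Test a f →
    ∀ ε : ℝ, 0 < ε → ∀ T0 : ℝ, ∃ T, T0 ≤ T ∧ Close ν a f ε T x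

/-- `ν` is a limit point of all local statistics of `x ψ`, for `T → ∞` and `ψ → φ` -/
def IsNearLimit {F : Type} [TopologicalSpace F] (x : F → ℕ → ℝ)
    (ν : ∀ a, Measure (Fin (dim a) → ℝ)) (φ : F) : Prop :=
  ∀ (n : ℕ) (a : Fin n → Option ℕ) (f : ∀ j, (Fin (dim (a j)) → ℝ) → ℝ), Test a f →
    ∀ ε : ℝ, 0 < ε → ∀ T0 : ℝ, ∀ V ∈ 𝓝 φ, ∃ ψ ∈ V, ∃ T, T0 ≤ T ∧ Close ν a f ε T (x ψ)

/-- near `φ` the statistics of the generic `x ψ` are close to `ν` for arbitrarily large `T` -/
def IsStable {F : Type} [TopologicalSpace F] (x : F → ℕ → ℝ)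
    (ν : ∀ a, Measure (Fin (dim a) → ℝ)) (φ : F) : Prop :=
  ∀ (n : ℕ) (a : Fin n → Option ℕ) (f : ∀ j, (Fin (dim (a j)) → ℝ) → ℝ), Test a f →
    ∀ ε : ℝ, 0 < ε → ∃ V ∈ 𝓝 φ, ∀ᶠ ψ in residual F, ψ ∈ V →
      ∀ T0 : ℝ, ∃ T, T0 ≤ T ∧ Close ν a f ε T (x ψ)

/-- near `φ` the statistics of all `x ψ` stay away from `ν` for all large `T` -/
def IsAway {F : Type} [TopologicalSpace F] (x : F → ℕ → ℝ)
    (ν : ∀ a, Measure (Fin (dim a) → ℝ)) (φ : F) : Prop :=
  ∃ (n : ℕ) (a : Fin n → Option ℕ) (f : ∀ j, (Fin (dim (a j)) → ℝ) → ℝ), Test a f ∧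
    ∃ ε : ℝ, 0 < ε ∧ ∃ T0 : ℝ, ∃ V ∈ 𝓝 φ, ∀ ψ ∈ V, ∀ T, T0 ≤ T → ¬ Close ν a f ε T (x ψ)

theorem result (M : Type) [MetricSpace M] [CompactSpace M] [MeasurableSpace M] [BorelSpace M]
    [Nonempty M] (μ : Measure M) (D : Data M) (hD : D.IsSurf μ)
    (F : Type) [TopologicalSpace F] (ι : F → C(M, ℝ)) (hι : Continuous ι) :
    -- the unfolded levels exist
    (∀ φ : F, (surf D (ι φ)).IsSurf (area μ (ι φ)) ∧ ∃ x, IsUnfolded D μ (ι φ) x) ∧
    ∀ x : F → ℕ → ℝ, (∀ φ, IsUnfolded D μ (ι φ) (x φ)) →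
      -- mean spacing one
      (∀ φ, Tendsto (fun T : ℝ => (number T (x φ) : ℝ) / T) atTop (𝓝 1)) ∧
      -- generic metrics
      (∀ᶠ φ in residual F, ∀ ν : ∀ a, Measure (Fin (dim a) → ℝ),
        (∀ a, IsFiniteMeasureOnCompacts (ν a)) →
          (IsNearLimit x ν φ → IsLimit ν (x φ)) ∧ (IsLimit ν (x φ) → IsStable x ν φ)) ∧
      -- alternative
      ∀ ν : ∀ a, Measure (Fin (dim a) → ℝ), (∀ a, IsFiniteMeasureOnCompacts (ν a)) →
        ∃ U₁ U₂ : Set F, IsOpen U₁ ∧ IsOpen U₂ ∧ Disjoint U₁ U₂ ∧ Dense (U₁ ∪ U₂) ∧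
          (∀ᶠ φ in residual F, φ ∈ U₁ → IsLimit ν (x φ)) ∧ ∀ φ ∈ U₂, IsAway x ν φ := by
  obtain ⟨hf, -⟩ := tFin M μ D hD
  haveI := hf
  obtain ⟨i, a, hSf, hi, ha⟩ := Pool.Agent.Y264.QR.tPackF M μ D hD inferInstance
  obtain ⟨b, hB, hF, hA, hexp, -⟩ := Pool.Agent.Y264.QR.tFm M μ (Pool.Agent.Y264.QR.HF D μ) i a hSf
  have hW := Pool.Agent.Y264.QR.tWl M μ D hD inferInstance i a b hSf hi ha hB
  haveI : CompleteSpace (Pool.Agent.Y264.QR.HF D μ) :=
    (Submodule.isClosed_topologicalClosure _).completeSpace_coe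
  have harea : ∀ φ : C(M, ℝ), (area μ φ).real univ = ∫ x, Real.exp (φ x) ∂μ := by
    intro φ
    have hm : Measurable fun x => Real.exp (φ x) :=
      (Real.continuous_exp.comp φ.continuous).measurable
    have h5 : (area μ φ).real univ = ∫ x, (1 : ℝ) ∂(wm μ fun x => Real.exp (φ x)) := by
      simp [area]
    rw [h5, integral_wm μ _ hm fun x => (Real.exp_pos _).le]
    simp
  set X := Pool.Agent.Q205.Baire.spectra μ a b hF hA hexp hW ι hι with hX
  let stat : ∀ a : Option ℕ, Pool.Agent.Q205.Baire.LocalStat (Fin (dim a) → ℝ) := fun a =>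
    match a with
    | none =>
      { ι := ℕ
        I := fun N => Finset.range N
        φ := fun k y => fun _ => y (k + 1) - y k
        cont := fun k => by fun_prop }
    | some n =>
      { ι := Fin (n + 2) → ℕ
        I := fun N => by
          classical
          exact (Fintype.piFinset (fun _ => Finset.range N)).filter (fun σ => Function.Injective σ)
        φ := fun σ y => fun j => y (σ j.succ) - y (σ 0)
        cont := fun σ => by fun_prop }
  have hstat : ∀ (a : Option ℕ) (f : (Fin (dim a) → ℝ) → ℝ) (T : ℝ) (φ : F),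
      Pool.Agent.Q205.Baire.S X (stat a) f T φ = statistic a f T (fun k => X.x k φ) := by
    intro a f T φ
    rcases a with _ | n
    · rfl
    · rfl
  refine ⟨fun φ => ⟨(tConf M μ D hD _
    (Real.continuous_exp.comp (ι φ).continuous) fun x => Real.exp_pos _).1, ?_⟩, ?_⟩
  · obtain ⟨u, lam, h⟩ := Pool.Agent.Y264.QR.tEx M μ D hD inferInstance (ι φ)
    exact ⟨fun k => (area μ (ι φ)).real univ / (4 * π) * lam k, u, lam,
      ⟨h.eig, h.mono, h.orth, h.total⟩, fun k => rfl⟩
  intro x hx
  have hxX : x = fun φ k => X.x k φ := by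
    funext φ k
    obtain ⟨u, lam, hu, hxk⟩ := hx φ
    obtain ⟨e, he1, he2⟩ := Pool.Agent.Y264.QR.tBr M μ D hD i a b hSf hi ha hB hF (ι φ) u lam
      ⟨hu.eig, hu.mono, hu.orth, hu.total⟩
    have hmm : Ev a (b (ι φ)) k = lam k :=
      Pool.Agent.Y592.QE.mm _ a (b (ι φ)) (hF (ι φ)) e lam he2 k
    rw [hxk, harea]
    show _ = (∫ x, Real.exp (ι φ x) ∂μ) / (4 * π) * Ev a (b (ι φ)) k
    rw [hmm]
  subst hxX
  refine ⟨fun φ => ?_, ?_, ?_⟩
  · exact Pool.Agent.Q205.Baire.count_div X φ (Pool.Agent.Q205.Baire.unf_div μ a b hA hW (ι φ))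
  · filter_upwards [Pool.Agent.Q205.Baire.generic_limit X dim stat,
      Pool.Agent.Q205.Baire.generic_stable X dim stat] with φ h1 h2 ν hν
    have hlim : Pool.Agent.Q205.Baire.Limit X dim stat ν φ ↔ IsLimit ν (fun k => X.x k φ) := by
      constructor
      · intro h n a f hf ε hε T0
        obtain ⟨T, hT, hj⟩ := h n a f (fun j => (hf j).1) (fun j => (hf j).2) ε hε T0
        exact ⟨T, hT, fun j => by rw [← hstat]; exact hj j⟩
      · intro h n a f hf hs ε hε T0
        obtain ⟨T, hT, hj⟩ := h n a f (fun j => ⟨hf j, hs j⟩) ε hε T0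
        exact ⟨T, hT, fun j => by rw [hstat]; exact hj j⟩
    refine ⟨fun h => ?_, fun h => ?_⟩
    · rw [← hlim]
      refine h1 ν hν fun n a f hf hs ε hε T0 V hV => ?_
      obtain ⟨ψ, hψ, T, hT, hj⟩ := h n a f (fun j => ⟨hf j, hs j⟩) ε hε T0 V hV
      exact ⟨ψ, hψ, T, hT, fun j => by rw [hstat]; exact hj j⟩
    · rw [← hlim] at h
      intro n a f hf ε hε
      obtain ⟨V, hV, h3⟩ := h2 ν hν h n a f (fun j => (hf j).1) (fun j => (hf j).2) ε hε
      refine ⟨V, hV, ?_⟩
      filter_upwards [h3] with ψ h4 hψ T0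
      obtain ⟨T, hT, hj⟩ := h4 hψ T0
      exact ⟨T, hT, fun j => by rw [← hstat]; exact hj j⟩
  · intro ν hν
    obtain ⟨U₁, U₂, h1, h2, h3, h4, h5, h6⟩ :=
      Pool.Agent.Q205.Baire.alternative X dim stat ν
    refine ⟨U₁, U₂, h1, h2, h3, h4, ?_, ?_⟩
    · filter_upwards [h5] with φ h hφ n a f hf ε hε T0
      obtain ⟨T, hT, hj⟩ := h hφ n a f (fun j => (hf j).1) (fun j => (hf j).2) ε hε T0
      exact ⟨T, hT, fun j => by rw [← hstat]; exact hj j⟩
    · intro φ hφ
      obtain ⟨n, a, f, hf, hs, ε, hε, T0, V, hV, h⟩ := h6 φ hφ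
      refine ⟨n, a, f, fun j => ⟨hf j, hs j⟩, ε, hε, T0, V, hV, fun ψ hψ T hT hcl => ?_⟩
      obtain ⟨j, hj⟩ := h ψ hψ T hT
      have := hcl j
      rw [← hstat] at this
      linarith

end Pool.Agent.Results.MP_a825e8_mp.SurfacesLimitStatistics
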